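import Pool.Agent.Y118.HG.Defs

/-!
# Project HG (helper118), part FORM: the explicit G-function solution
-/

set_option autoImplicit false

namespace Pool.Agent.Y655.HG

open Pool.Agent.Y113 PowerSeries Finset

/-- coefficientwise product -/
noncomputable def Had (F G : ℚ⟦X⟧) : ℚ⟦X⟧ := PowerSeries.mk fun m => coeff m F * coeff m G

lemma coeff_Had (F G : ℚ⟦X⟧) (m : ℕ) : coeff m (Had F G) = coeff m F * coeff m G := by
  simp only [Had, coeff_mk]

lemma SDp_had {A B : ℝ} {F G : ℚ⟦X⟧} (h : SDp A F) (h' : SDp B G) : SDp (A * B) (Had F G) := by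
  have hA := h.one_le
  have hB := h'.one_le
  refine ⟨fun m => ?_, fun m => ?_⟩
  · rw [coeff_Had]
    push_cast
    rw [abs_mul, mul_pow]
    exact mul_le_mul (h.1 m) (h'.1 m) (abs_nonneg _) (by positivity)
  · obtain ⟨d, hd0, hd, hd'⟩ := h.2 m
    obtain ⟨e, he0, he, he'⟩ := h'.2 m
    refine ⟨d * e, Nat.mul_pos hd0 he0, ?_, fun j hj => ?_⟩
    · push_cast
      rw [mul_pow]
      exact mul_le_mul hd he (by positivity) (by positivity)
    · obtain ⟨a, ha⟩ := hd' j hj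
      obtain ⟨b, hb⟩ := he' j hj
      refine ⟨a * b, ?_⟩
      rw [coeff_Had]
      push_cast
      rw [← ha, ← hb]
      ring

lemma SDc_had {F G : ℚ⟦X⟧} (h : SDc F) (h' : SDc G) : SDc (Had F G) := by
  obtain ⟨n, hn⟩ := h
  obtain ⟨n', hn'⟩ := h'
  exact ⟨n + n', (SDp_had hn hn').mono (by rw [pow_add])⟩

lemma SDc_const (q : ℚ) : SDc (C q) := by
  obtain ⟨n, hn⟩ : ∃ n : ℕ, |(q : ℝ)| ≤ 2 ^ n := by
    obtain ⟨n, hn⟩ := pow_unbounded_of_one_lt |(q : ℝ)| (show (1 : ℝ) < 2 by norm_num)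
    exact ⟨n, hn.le⟩
  obtain ⟨n', hn'⟩ : ∃ n' : ℕ, (q.den : ℝ) ≤ 2 ^ n' := by
    obtain ⟨n', hn'⟩ := pow_unbounded_of_one_lt (q.den : ℝ) (show (1 : ℝ) < 2 by norm_num)
    exact ⟨n', hn'.le⟩
  have h1 : (2 : ℝ) ^ n ≤ 2 ^ (n + n') := pow_le_pow_right₀ (by norm_num) (by omega)
  have h2 : (2 : ℝ) ^ n' ≤ 2 ^ (n + n') := pow_le_pow_right₀ (by norm_num) (by omega)
  have h3 : ∀ m : ℕ, (2 : ℝ) ^ (n + n') ≤ (2 ^ (n + n')) ^ (m + 1) := fun m =>
    le_self_pow₀ (one_le_pow₀ (by norm_num)) (by omega)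
  refine ⟨n + n', fun m => ?_, fun m => ⟨q.den, q.pos, (hn'.trans h2).trans (h3 m), fun j _ => ?_⟩⟩
  · rw [coeff_C]
    split_ifs
    · exact (hn.trans h1).trans (h3 m)
    · simp
  · rw [coeff_C]
    split_ifs
    · exact ⟨q.num, by rw [mul_comm]; exact Rat.mul_den_eq_num q⟩
    · exact ⟨0, by simp⟩

lemma SDc_pow (k : ℕ) : SDc ((X : ℚ⟦X⟧) ^ k) := by
  induction k with
  | zero => rw [pow_zero]; exact SDc.one
  | succ k ih => rw [pow_succ]; exact ih.mul SDc.X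

lemma SDc_zero : SDc (0 : ℚ⟦X⟧) := by
  have := SDc_const 0
  rwa [map_zero] at this

lemma SDc_sum {ι : Type*} (s : Finset ι) (F : ι → ℚ⟦X⟧) (h : ∀ i ∈ s, SDc (F i)) :
    SDc (∑ i ∈ s, F i) := by
  classical
  induction s using Finset.induction_on with
  | empty => rw [sum_empty]; exact SDc_zero
  | insert a s ha ih =>
    rw [sum_insert ha]
    exact (h a (mem_insert_self _ _)).add (ih fun i hi => h i (mem_insert_of_mem hi))

/-- the series of `(1 - X) ^ (-1/2)` -/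
noncomputable def Bs : ℚ⟦X⟧ := PowerSeries.mk fun m => (m.centralBinom : ℚ) / 4 ^ m

lemma Bs_rec (m : ℕ) : (coeff (m + 1) Bs) * ((m : ℚ) + 1) = ((m : ℚ) + 1 / 2) * coeff m Bs := by
  simp only [Bs, coeff_mk]
  have h := Nat.succ_mul_centralBinom_succ m
  have h' : ((m : ℚ) + 1) * ((m + 1).centralBinom : ℚ) = 2 * (2 * m + 1) * (m.centralBinom : ℚ) := by
    exact_mod_cast h
  rw [pow_succ]
  have e : ((m + 1).centralBinom : ℚ) / (4 ^ m * 4) * ((m : ℚ) + 1) =
      (((m : ℚ) + 1) * ((m + 1).centralBinom : ℚ)) / (4 ^ m * 4) := by ring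
  rw [e, h']
  field_simp
  ring

lemma Bs_zero : coeff 0 Bs = 1 := by
  simp [Bs]

lemma SDc_Bs : SDc Bs := by
  refine ⟨2, fun m => ?_, fun m => ⟨4 ^ m, by positivity, ?_, fun j hj => ?_⟩⟩
  · simp only [Bs, coeff_mk]
    have h1 := centralBinom_le m
    rw [abs_of_nonneg (by positivity)]
    have h4 : (((m.centralBinom : ℚ) / 4 ^ m : ℚ) : ℝ) ≤ 1 := by exact_mod_cast h1
    exact h4.trans (one_le_pow₀ (by norm_num))
  · push_cast
    rw [show (4 : ℝ) = 2 ^ 2 by norm_num]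
    exact pow_le_pow_right₀ (by norm_num) (by omega)
  · simp only [Bs, coeff_mk]
    refine ⟨(j.centralBinom : ℤ) * 4 ^ (m - j), ?_⟩
    obtain ⟨r, rfl⟩ : ∃ r, m = j + r := ⟨m - j, by omega⟩
    have e1 : j + r - j = r := by omega
    rw [e1]
    push_cast
    rw [pow_add]
    field_simp

/-- `1 / (2 s + 1)` -/
noncomputable def Os : ℚ⟦X⟧ := PowerSeries.mk fun s => 1 / (2 * (s : ℚ) + 1)

lemma SDc_Os : SDc Os := by
  refine ⟨16, fun m => ?_, fun m => ⟨Nat.lcmUpto (2 * m + 1), Nat.lcmUpto_pos _, ?_, fun j hj => ?_⟩⟩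
  · simp only [Os, coeff_mk]
    push_cast
    rw [abs_of_nonneg (by positivity)]
    refine le_trans ?_ (one_le_pow₀ (by norm_num))
    rw [div_le_one (by positivity)]
    linarith [show (0 : ℝ) ≤ m by positivity]
  · refine (lcm_bound _).trans ?_
    rw [← pow_mul, ← pow_mul]
    exact pow_le_pow_right₀ (by norm_num) (by omega)
  · simp only [Os, coeff_mk]
    obtain ⟨a, ha⟩ := lcm_div (j := 2 * j + 1) (n := 2 * m + 1) (by omega) (by omega)
    refine ⟨a, ?_⟩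
    rw [← ha]
    push_cast
    rfl

/-- bounds for the powers -/
lemma pow_bound {P : ℚ⟦X⟧} {K : ℝ} (hK : 1 ≤ K) (hP : ∀ m, |((coeff m P : ℚ) : ℝ)| ≤ K ^ m)
    (d m : ℕ) : |((coeff m (P ^ d) : ℚ) : ℝ)| ≤ 2 ^ (m + d) * K ^ m := by
  induction d generalizing m with
  | zero =>
    rw [pow_zero, coeff_one]
    split_ifs
    · simp only [Rat.cast_one, abs_one]
      have h1 : (1 : ℝ) ≤ 2 ^ (m + 0) := one_le_pow₀ (by norm_num)
      have h2 : (1 : ℝ) ≤ K ^ m := one_le_pow₀ hK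
      nlinarith
    · simp; positivity
  | succ d ih =>
    rw [pow_succ, coeff_mul]
    push_cast
    refine (Finset.abs_sum_le_sum_abs _ _).trans ?_
    have h1 : ∀ p ∈ antidiagonal m, |((coeff p.1 (P ^ d) : ℚ) : ℝ) * ((coeff p.2 P : ℚ) : ℝ)| ≤
        2 ^ p.1 * (2 ^ d * K ^ m) := by
      intro p hp
      rw [Finset.HasAntidiagonal.mem_antidiagonal] at hp
      rw [abs_mul]
      refine (mul_le_mul (ih p.1) (hP p.2) (abs_nonneg _) (by positivity)).trans (le_of_eq ?_)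
      rw [← hp, pow_add, pow_add K]
      ring
    refine (Finset.sum_le_sum h1).trans ?_
    rw [← Finset.sum_mul]
    have h3 : ∑ p ∈ antidiagonal m, (2 : ℝ) ^ p.1 ≤ 2 ^ (m + 1) := by
      rw [Finset.Nat.sum_antidiagonal_eq_sum_range_succ_mk]
      simp only
      have := geom_sum_eq (x := (2 : ℝ)) (by norm_num) (m + 1)
      rw [this]
      norm_num
    calc (∑ p ∈ antidiagonal m, (2 : ℝ) ^ p.1) * (2 ^ d * K ^ m) ≤
        2 ^ (m + 1) * (2 ^ d * K ^ m) := mul_le_mul_of_nonneg_right h3 (by positivity)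
      _ = _ := by
        rw [show m + (d + 1) = (m + 1) + d by ring, pow_add _ (m + 1) d]
        ring

/-- denominators of the powers -/
lemma pow_int {P : ℚ⟦X⟧} {N : ℕ} (hP : ∀ m, ∃ a : ℤ, (N : ℚ) ^ m * coeff m P = a)
    (d m : ℕ) : ∃ a : ℤ, (N : ℚ) ^ m * coeff m (P ^ d) = a := by
  induction d generalizing m with
  | zero =>
    rw [pow_zero, coeff_one]
    split_ifs with h
    · exact ⟨1, by rw [h]; simp⟩
    · exact ⟨0, by simp⟩
  | succ d ih =>
    choose a ha using ih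
    choose b hb using hP
    refine ⟨∑ p ∈ antidiagonal m, a p.1 * b p.2, ?_⟩
    rw [pow_succ, coeff_mul, mul_sum]
    push_cast
    refine Finset.sum_congr rfl fun p hp => ?_
    rw [Finset.HasAntidiagonal.mem_antidiagonal] at hp
    rw [← ha p.1, ← hb p.2, ← hp, pow_add]
    ring

lemma coeff_pow_lt {P : ℚ⟦X⟧} (hP : constantCoeff P = 0) {d m : ℕ} (h : m < d) :
    coeff m (P ^ d) = 0 := by
  apply coeff_of_lt_order
  refine lt_of_lt_of_le ?_ (le_order_pow_of_constantCoeff_eq_zero d hP)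
  exact_mod_cast h

lemma coeff_subst_P {P : ℚ⟦X⟧} (hP : constantCoeff P = 0) (m : ℕ) (F : ℚ⟦X⟧) :
    coeff m (F.subst P) = ∑ d ∈ Finset.range (m + 1), coeff d F * coeff m (P ^ d) := by
  rw [coeff_subst' (PowerSeries.HasSubst.of_constantCoeff_zero' hP)]
  rw [finsum_eq_sum_of_support_subset (s := Finset.range (m + 1))]
  · rfl
  · intro d hd
    rw [Function.mem_support] at hd
    rw [Finset.coe_range, Set.mem_Iio]
    by_contra h
    apply hd
    rw [coeff_pow_lt hP (by omega), smul_zero]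

lemma SDc_subst {P : ℚ⟦X⟧} (hP0 : constantCoeff P = 0) {K : ℝ} (hK : 1 ≤ K)
    (hP : ∀ m, |((coeff m P : ℚ) : ℝ)| ≤ K ^ m) {N : ℕ} (hN : 0 < N)
    (hPN : ∀ m, ∃ a : ℤ, (N : ℚ) ^ m * coeff m P = a) {F : ℚ⟦X⟧} (hF : SDc F) :
    SDc (F.subst P) := by
  obtain ⟨n, hn⟩ := hF
  have hA := hn.one_le
  set A : ℝ := 2 ^ n with hAdef
  have hA0 : 0 < A := by linarith
  have hN1 : (1 : ℝ) ≤ N := by exact_mod_cast hN
  have key : SDp (2 ^ 3 * A * K * N) (F.subst P) := by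
    refine ⟨fun m => ?_, fun m => ?_⟩
    · rw [coeff_subst_P hP0]
      push_cast
      refine (Finset.abs_sum_le_sum_abs _ _).trans ?_
      refine (Finset.sum_le_card_nsmul _ _ (A ^ (m + 1) * (2 ^ (m + m) * K ^ (m + 1))) fun d hd => ?_).trans ?_
      · rw [Finset.mem_range] at hd
        rw [abs_mul]
        refine mul_le_mul ((hn.1 d).trans (pow_le_pow_right₀ hA (by omega))) ((pow_bound hK hP d m).trans ?_)
          (abs_nonneg _) (by positivity)
        refine mul_le_mul (pow_le_pow_right₀ (by norm_num) (by omega)) (pow_le_pow_right₀ hK (by omega)) (by positivity)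
          (by positivity)
      · rw [nsmul_eq_mul, Finset.card_range]
        push_cast
        calc ((m : ℝ) + 1) * (A ^ (m + 1) * (2 ^ (m + m) * K ^ (m + 1)))
            ≤ 2 ^ (m + 1) * (A ^ (m + 1) * ((2 ^ 2) ^ (m + 1) * K ^ (m + 1))) := by
              refine mul_le_mul ?_ ?_ (by positivity) (by positivity)
              · exact (succ_le_two_pow m).trans (pow_le_pow_right₀ (by norm_num) (by omega))
              · refine mul_le_mul_of_nonneg_left ?_ (by positivity)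
                refine mul_le_mul_of_nonneg_right ?_ (by positivity)
                rw [← pow_mul]
                exact pow_le_pow_right₀ (by norm_num) (by omega)
          _ = (2 ^ 3 * A * K) ^ (m + 1) := by
              rw [← mul_pow, ← mul_pow, ← mul_pow]
              congr 1
              ring
          _ ≤ _ := by
              apply pow_le_pow_left₀ (by positivity)
              exact le_mul_of_one_le_right (by positivity) hN1
    · obtain ⟨d, hd0, hd, hd'⟩ := hn.2 m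
      refine ⟨d * N ^ m, by positivity, ?_, fun j hj => ?_⟩
      · push_cast
        calc (d : ℝ) * N ^ m ≤ A ^ (m + 1) * (N : ℝ) ^ (m + 1) :=
              mul_le_mul hd (pow_le_pow_right₀ hN1 (by omega)) (by positivity) (by positivity)
          _ = (A * N) ^ (m + 1) := by rw [mul_pow]
          _ ≤ _ := by
              apply pow_le_pow_left₀ (by positivity)
              refine mul_le_mul_of_nonneg_right ?_ (by positivity)
              nlinarith
      · choose! a ha using hd'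
        choose b hb using fun e => pow_int hPN e j
        refine ⟨(N : ℤ) ^ (m - j) * ∑ e ∈ Finset.range (j + 1), a e * b e, ?_⟩
        rw [coeff_subst_P hP0, Finset.mul_sum]
        push_cast
        rw [mul_sum]
        refine Finset.sum_congr rfl fun e he => ?_
        rw [Finset.mem_range] at he
        rw [← ha e (by omega), ← hb e]
        have e1 : (N : ℚ) ^ m = (N : ℚ) ^ (m - j) * (N : ℚ) ^ j := by
          rw [← pow_add]
          congr 1
          omega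
        rw [e1]
        ring
  obtain ⟨k, hk⟩ := pow_unbounded_of_one_lt (2 ^ 3 * A * K * N) (show (1 : ℝ) < 2 by norm_num)
  exact ⟨k, key.mono hk.le⟩

/-- the Euler operator -/
noncomputable def th (F : ℚ⟦X⟧) : ℚ⟦X⟧ := X * d⁄dX ℚ F

lemma coeff_th (F : ℚ⟦X⟧) (m : ℕ) : coeff m (th F) = m * coeff m F := by
  unfold th
  cases m with
  | zero => simp
  | succ m =>
    rw [coeff_succ_X_mul, coeff_derivative]
    push_cast
    ring

lemma th_mul (F G : ℚ⟦X⟧) : th (F * G) = th F * G + F * th G := by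
  unfold th
  rw [Derivation.leibniz, smul_eq_mul, smul_eq_mul]
  ring

lemma C_two : (C (2 : ℚ) : ℚ⟦X⟧) = 2 := map_ofNat C 2

lemma Bs_sq : Bs ^ 2 * (1 - X) = 1 := by
  have h1 : 2 * (1 - X) * d⁄dX ℚ Bs = Bs := by
    ext m
    have e : 2 * (1 - X) * d⁄dX ℚ Bs = C 2 * d⁄dX ℚ Bs - C 2 * th Bs := by
      unfold th
      rw [C_two]
      ring
    rw [e, map_sub, coeff_C_mul, coeff_C_mul, coeff_derivative, coeff_th, Bs_rec]
    ring
  have h2 : Bs ^ 2 * (1 - X) = Bs * Bs * (1 - X) := by ring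
  rw [h2]
  apply PowerSeries.derivative.ext
  · rw [Derivation.leibniz, Derivation.leibniz, map_sub, derivative_X, derivative_one]
    simp only [smul_eq_mul]
    linear_combination Bs * h1
  · have h3 : constantCoeff Bs = 1 := by
      rw [← coeff_zero_eq_constantCoeff_apply]
      exact Bs_zero
    simp [h3]

lemma h_sq {P : ℚ⟦X⟧} (hP : constantCoeff P = 0) : (Bs.subst P) ^ 2 * (1 - P) = 1 := by
  have ha := PowerSeries.HasSubst.of_constantCoeff_zero' hP
  have h := congrArg (PowerSeries.substAlgHom (R := ℚ) ha) Bs_sq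
  rw [map_mul, map_pow, map_sub, map_one, substAlgHom_X] at h
  rwa [← coe_substAlgHom ha]

lemma exists_KN (g : ℚ⟦X⟧) (n : ℕ) (hg : ∀ m, n < m → coeff m g = 0) (h0 : coeff 0 g = 0) :
    ∃ (K : ℝ) (N : ℕ), 1 ≤ K ∧ 0 < N ∧ (∀ m, |((coeff m g : ℚ) : ℝ)| ≤ K ^ m) ∧
      ∀ m, ∃ a : ℤ, (N : ℚ) ^ m * coeff m g = a := by
  refine ⟨1 + ∑ c ∈ range (n + 1), |((coeff c g : ℚ) : ℝ)|, ∏ c ∈ range (n + 1), (coeff c g).den,
    ?_, ?_, ?_, ?_⟩
  · have : 0 ≤ ∑ c ∈ range (n + 1), |((coeff c g : ℚ) : ℝ)| := sum_nonneg fun _ _ => abs_nonneg _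
    linarith
  · exact Finset.prod_pos fun c _ => (coeff c g).pos
  · intro m
    have hS : 0 ≤ ∑ c ∈ range (n + 1), |((coeff c g : ℚ) : ℝ)| := sum_nonneg fun _ _ => abs_nonneg _
    rcases Nat.eq_zero_or_pos m with rfl | hm
    · rw [h0]; simp
    · by_cases hmn : m ≤ n
      · have h1 : |((coeff m g : ℚ) : ℝ)| ≤ ∑ c ∈ range (n + 1), |((coeff c g : ℚ) : ℝ)| :=
          single_le_sum (f := fun c => |((coeff c g : ℚ) : ℝ)|) (fun _ _ => abs_nonneg _)
            (mem_range.2 (by omega))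
        calc |((coeff m g : ℚ) : ℝ)| ≤ 1 + ∑ c ∈ range (n + 1), |((coeff c g : ℚ) : ℝ)| := by linarith
          _ ≤ _ := le_self_pow₀ (by linarith) (by omega)
      · rw [hg m (by omega)]
        simp only [Rat.cast_zero, abs_zero]
        positivity
  · intro m
    rcases Nat.eq_zero_or_pos m with rfl | hm
    · exact ⟨0, by rw [h0]; simp⟩
    · by_cases hmn : m ≤ n
      · obtain ⟨b, hb⟩ : (coeff m g).den ∣ ∏ c ∈ range (n + 1), (coeff c g).den :=
          dvd_prod_of_mem _ (mem_range.2 (by omega))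
        refine ⟨((∏ c ∈ range (n + 1), (coeff c g).den : ℕ) : ℤ) ^ (m - 1) * (b * (coeff m g).num), ?_⟩
        obtain ⟨k, rfl⟩ : ∃ k, m = k + 1 := ⟨m - 1, by omega⟩
        have e1 : k + 1 - 1 = k := by omega
        rw [e1, pow_succ]
        have e2 : ((∏ c ∈ range (n + 1), (coeff c g).den : ℕ) : ℚ) * coeff (k + 1) g =
            b * (coeff (k + 1) g).num := by
          rw [hb]
          push_cast
          rw [← Rat.mul_den_eq_num (coeff (k + 1) g)]
          ring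
        rw [mul_assoc, e2]
        push_cast
        rfl
      · exact ⟨0, by rw [hg m (by omega)]; simp⟩

lemma exists_psi (f : Polynomial ℚ) (hf0 : f.coeff 0 ≠ 0) (R : ℚ⟦X⟧) (hR : SDc R) :
    ∃ ψ : ℚ⟦X⟧, SDc ψ ∧ (f : ℚ⟦X⟧) * th ψ +
      C (1 / 2 : ℚ) * ((f : ℚ⟦X⟧) + th (f : ℚ⟦X⟧)) * ψ = R := by
  set F : ℚ⟦X⟧ := (f : ℚ⟦X⟧) with hF
  have hFc : ∀ m, coeff m F = f.coeff m := fun m => by rw [hF, Polynomial.coeff_coe]
  set P : ℚ⟦X⟧ := 1 - C ((f.coeff 0)⁻¹) * F with hP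
  have hPc : ∀ m, coeff m P = (if m = 0 then 1 else 0) - (f.coeff 0)⁻¹ * f.coeff m := by
    intro m
    rw [hP, map_sub, coeff_one, coeff_C_mul, hFc]
  have hP0 : coeff 0 P = 0 := by
    rw [hPc, if_pos rfl, inv_mul_cancel₀ hf0, sub_self]
  have hP0' : constantCoeff P = 0 := by
    rw [← coeff_zero_eq_constantCoeff_apply]; exact hP0
  obtain ⟨K, N, hK, hN, hPK, hPN⟩ := exists_KN P f.natDegree (by
    intro m hm
    rw [hPc, if_neg (by omega), Polynomial.coeff_eq_zero_of_natDegree_lt hm]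
    simp) hP0
  set h : ℚ⟦X⟧ := Bs.subst P with hh
  have hhS : SDc h := SDc_subst hP0' hK hPK hN hPN SDc_Bs
  have A4 : (C ((f.coeff 0)⁻¹) : ℚ⟦X⟧) * C (f.coeff 0) = 1 := by
    rw [← map_mul, inv_mul_cancel₀ hf0, map_one]
  have A3 : h * h * F = C (f.coeff 0) := by
    have h1 := h_sq hP0'
    rw [← hh] at h1
    have h2 : (1 : ℚ⟦X⟧) - P = C ((f.coeff 0)⁻¹) * F := by rw [hP]; ring
    rw [h2] at h1
    calc h * h * F = C (f.coeff 0) * (h ^ 2 * (C ((f.coeff 0)⁻¹) * F)) := by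
          linear_combination (-(h ^ 2 * F)) * A4
      _ = _ := by rw [h1, mul_one]
  have hne : h ≠ 0 := by
    intro h0
    rw [h0, zero_mul, zero_mul] at A3
    have := congrArg (coeff 0) A3
    rw [map_zero, coeff_zero_C] at this
    exact hf0 this.symm
  have A1 : 2 * F * th h + h * th F = 0 := by
    have h1 : th (h * h * F) = 0 := by
      rw [A3]
      unfold th
      rw [derivative_C, mul_zero]
    rw [th_mul, th_mul] at h1
    have h2 : h * (2 * F * th h + h * th F) = 0 := by linear_combination h1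
    exact (mul_eq_zero.1 h2).resolve_left hne
  set v : ℚ⟦X⟧ := Had (C (2 * (f.coeff 0)⁻¹) * (R * h)) Os with hv
  have hvS : SDc v := SDc_had ((SDc_const _).mul (hR.mul hhS)) SDc_Os
  have A2 : th v + C (1 / 2 : ℚ) * v = C ((f.coeff 0)⁻¹) * (R * h) := by
    ext s
    rw [map_add, coeff_th, coeff_C_mul, coeff_C_mul, hv, coeff_Had, coeff_C_mul]
    simp only [Os, coeff_mk]
    have : (2 * (s : ℚ) + 1) ≠ 0 := by positivity
    field_simp
  have A5 : 2 * (C (1 / 2 : ℚ) : ℚ⟦X⟧) = 1 := by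
    rw [← C_two, ← map_mul]
    norm_num
  refine ⟨h * v, hhS.mul hvS, ?_⟩
  rw [th_mul]
  linear_combination C (1 / 2 : ℚ) * v * A1 + F * h * A2 + C ((f.coeff 0)⁻¹) * R * A3 + R * A4 -
    F * th h * v * A5

section main

variable (ψ : ℚ⟦X⟧) (i : ℕ)

/-- the shifted moments -/
noncomputable def Sg (c : ℕ) : ℚ⟦X⟧ := (if i ≤ c then X ^ (c - i) else 0) + X ^ (c + 1) * ψ

/-- the solutions -/
noncomputable def Ec (c : ℕ) : ℚ⟦X⟧ := Had Bs (Sg ψ i c)

lemma Sg_succ (c : ℕ) : Sg ψ i (c + 1) = X * Sg ψ i c + (if i = c + 1 then 1 else 0) := by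
  unfold Sg
  by_cases h1 : i ≤ c
  · rw [if_pos h1, if_pos (by omega), if_neg (by omega), show c + 1 - i = (c - i) + 1 by omega]
    ring
  · by_cases h2 : i = c + 1
    · rw [if_neg h1, if_pos (by omega), if_pos h2, h2, Nat.sub_self]
      ring
    · rw [if_neg h1, if_neg (by omega), if_neg h2]
      ring

lemma coeff_Sg_succ (c m : ℕ) : coeff (m + 1) (Sg ψ i (c + 1)) = coeff m (Sg ψ i c) := by
  rw [Sg_succ, map_add, coeff_succ_X_mul]
  split_ifs
  · rw [coeff_one, if_neg (by omega), add_zero]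
  · rw [map_zero, add_zero]

lemma coeff_Sg (c m : ℕ) : coeff (m + 1) (Sg ψ i c) =
    (if c = m + 1 + i then 1 else 0) + (if c ≤ m then coeff (m - c) ψ else 0) := by
  unfold Sg
  rw [map_add]
  congr 1
  · by_cases h : i ≤ c
    · rw [if_pos h, coeff_X_pow]
      by_cases h2 : c = m + 1 + i
      · rw [if_pos h2, if_pos (by omega)]
      · rw [if_neg h2, if_neg (by omega)]
    · rw [if_neg h, map_zero, if_neg (by omega)]
  · rw [coeff_X_pow_mul']
    by_cases h : c ≤ m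
    · rw [if_pos (by omega), if_pos h, show m + 1 - (c + 1) = m - c by omega]
    · rw [if_neg (by omega), if_neg h]

lemma rel1 (c : ℕ) : d⁄dX ℚ (Ec ψ i (c + 1)) =
    X * d⁄dX ℚ (Ec ψ i c) + C (1 / 2 : ℚ) * Ec ψ i c := by
  ext m
  have h1 : X * d⁄dX ℚ (Ec ψ i c) = th (Ec ψ i c) := rfl
  rw [h1, map_add, coeff_derivative, coeff_th, coeff_C_mul]
  unfold Ec
  rw [coeff_Had, coeff_Had, coeff_Sg_succ]
  linear_combination coeff m (Sg ψ i c) * Bs_rec m

lemma rel3 (c : ℕ) : d⁄dX ℚ (Ec ψ i c) = X ^ c * d⁄dX ℚ (Ec ψ i 0) +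
    C (1 / 2 : ℚ) * ∑ k ∈ range c, X ^ (c - 1 - k) * Ec ψ i k := by
  induction c with
  | zero => simp
  | succ c ih =>
    rw [rel1, ih, sum_range_succ]
    have h1 : ∑ k ∈ range c, X ^ (c + 1 - 1 - k) * Ec ψ i k =
        X * ∑ k ∈ range c, X ^ (c - 1 - k) * Ec ψ i k := by
      rw [mul_sum]
      refine sum_congr rfl fun k hk => ?_
      rw [mem_range] at hk
      rw [show c + 1 - 1 - k = (c - 1 - k) + 1 by omega]
      ring
    rw [h1, show c + 1 - 1 - c = 0 by omega]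
    ring

variable (n : ℕ) (f : Polynomial ℚ) (hfn : f.natDegree ≤ n)

/-- the coefficients of the right-hand side -/
noncomputable def rr (m : ℕ) : ℚ := f.coeff (m + 1 + i) * ((i : ℚ) + 1 / 2 - ((m : ℚ) + 1 + i) / 2)

include hfn

lemma fz {c : ℕ} (hc : n < c) : f.coeff c = 0 :=
  Polynomial.coeff_eq_zero_of_natDegree_lt (by omega)

lemma coeff_RR (k : ℕ) : coeff k (∑ m ∈ range n, C (rr i f m) * X ^ m : ℚ⟦X⟧) = rr i f k := by
  rw [map_sum]
  simp only [coeff_C_mul, coeff_X_pow]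
  by_cases h : k < n
  · rw [sum_eq_single k]
    · rw [if_pos rfl, mul_one]
    · intro b _ hb
      rw [if_neg (Ne.symm hb), mul_zero]
    · intro h'
      exact absurd (mem_range.2 h) h'
  · rw [sum_eq_zero]
    · unfold rr
      rw [fz n f hfn (by omega), zero_mul]
    · intro b hb
      rw [mem_range] at hb
      rw [if_neg (by omega), mul_zero]

lemma sum_ext (G : ℕ → ℚ) (k : ℕ) (hk : n ≤ k) : ∑ c ∈ range (n + 1), f.coeff c * G c =
    ∑ c ∈ range (k + 1), f.coeff c * G c := by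
  apply sum_subset
  · intro c hc
    rw [mem_range] at hc ⊢
    omega
  · intro c _ hc
    rw [mem_range] at hc
    rw [fz n f hfn (by omega), zero_mul]

lemma key (hψ : (f : ℚ⟦X⟧) * th ψ + C (1 / 2 : ℚ) * ((f : ℚ⟦X⟧) + th (f : ℚ⟦X⟧)) * ψ =
    ∑ m ∈ range n, C (rr i f m) * X ^ m) (m : ℕ) :
    ∑ c ∈ range (n + 1), f.coeff c * (((m : ℚ) + 1 / 2 - (c : ℚ) / 2) *
      coeff (m + 1) (Sg ψ i c)) = 0 := by
  have h1 := congrArg (coeff m) hψ
  rw [coeff_RR i n f hfn, map_add, mul_assoc, coeff_C_mul, coeff_mul, coeff_mul, mul_sum,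
    ← sum_add_distrib] at h1
  have h2 : ∀ p ∈ antidiagonal m, coeff p.1 (f : ℚ⟦X⟧) * coeff p.2 (th ψ) +
      1 / 2 * (coeff p.1 ((f : ℚ⟦X⟧) + th (f : ℚ⟦X⟧)) * coeff p.2 ψ) =
      f.coeff p.1 * (((m : ℚ) + 1 / 2 - (p.1 : ℚ) / 2) * coeff p.2 ψ) := by
    intro p hp
    rw [Finset.HasAntidiagonal.mem_antidiagonal] at hp
    rw [map_add, coeff_th, coeff_th, Polynomial.coeff_coe, ← hp]
    push_cast
    ring
  rw [sum_congr rfl h2, Finset.Nat.sum_antidiagonal_eq_sum_range_succ_mk] at h1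
  simp only at h1
  -- the sum over the large range
  rw [sum_ext n f hfn _ (n + m + 1 + i) (by omega)]
  have h3 : ∀ c ∈ range (n + m + 1 + i + 1), f.coeff c * (((m : ℚ) + 1 / 2 - (c : ℚ) / 2) *
      coeff (m + 1) (Sg ψ i c)) = (if c = m + 1 + i then f.coeff c *
        ((m : ℚ) + 1 / 2 - (c : ℚ) / 2) else 0) +
      (if c ≤ m then f.coeff c * (((m : ℚ) + 1 / 2 - (c : ℚ) / 2) * coeff (m - c) ψ) else 0) := by
    intro c _
    rw [coeff_Sg]
    split_ifs <;> ring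
  rw [sum_congr rfl h3, sum_add_distrib, sum_ite_eq' , if_pos (mem_range.2 (by omega)),
    ← sum_filter]
  have h4 : (range (n + m + 1 + i + 1)).filter (fun c => c ≤ m) = range m.succ := by
    ext c
    rw [mem_filter, mem_range, mem_range]
    omega
  rw [h4, h1]
  unfold rr
  push_cast
  ring

lemma rel2 (hψ : (f : ℚ⟦X⟧) * th ψ + C (1 / 2 : ℚ) * ((f : ℚ⟦X⟧) + th (f : ℚ⟦X⟧)) * ψ =
    ∑ m ∈ range n, C (rr i f m) * X ^ m) :
    ∑ c ∈ range (n + 1), C (f.coeff c) * d⁄dX ℚ (Ec ψ i c) =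
      C (1 / 2 : ℚ) * ∑ k ∈ range n, C (((k : ℚ) + 1) * f.coeff (k + 1)) * Ec ψ i k := by
  ext m
  rw [map_sum, coeff_C_mul, map_sum]
  simp only [coeff_C_mul, coeff_derivative]
  unfold Ec
  simp only [coeff_Had]
  have h1 := key ψ i n f hfn hψ m
  have h2 : ∑ k ∈ range n, ((k : ℚ) + 1) * f.coeff (k + 1) * (coeff m Bs * coeff m (Sg ψ i k)) =
      ∑ c ∈ range (n + 1), (c : ℚ) * f.coeff c * (coeff m Bs * coeff (m + 1) (Sg ψ i c)) := by
    rw [sum_range_succ']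
    simp only [Nat.cast_zero, zero_mul, add_zero, coeff_Sg_succ]
    push_cast
    rfl
  rw [h2, mul_sum]
  have h3 : ∑ c ∈ range (n + 1), f.coeff c * (coeff (m + 1) Bs * coeff (m + 1) (Sg ψ i c) *
      ((m : ℚ) + 1)) - ∑ c ∈ range (n + 1), 1 / 2 * ((c : ℚ) * f.coeff c *
        (coeff m Bs * coeff (m + 1) (Sg ψ i c))) =
      coeff m Bs * ∑ c ∈ range (n + 1), f.coeff c * (((m : ℚ) + 1 / 2 - (c : ℚ) / 2) *
      coeff (m + 1) (Sg ψ i c)) := by
    rw [← sum_sub_distrib, mul_sum]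
    refine sum_congr rfl fun c _ => ?_
    linear_combination f.coeff c * coeff (m + 1) (Sg ψ i c) * Bs_rec m
  rw [h1, mul_zero] at h3
  linarith

/-- the first row of the connection matrix -/
lemma row0 (hψ : (f : ℚ⟦X⟧) * th ψ + C (1 / 2 : ℚ) * ((f : ℚ⟦X⟧) + th (f : ℚ⟦X⟧)) * ψ =
    ∑ m ∈ range n, C (rr i f m) * X ^ m) :
    (f : ℚ⟦X⟧) * d⁄dX ℚ (Ec ψ i 0) = C (1 / 2 : ℚ) *
      ∑ k ∈ range n, (C (((k : ℚ) + 1) * f.coeff (k + 1)) -
        ∑ c ∈ Ioc k n, C (f.coeff c) * X ^ (c - 1 - k)) * Ec ψ i k := by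
  have h1 := rel2 ψ i n f hfn hψ
  have h2 : (f : ℚ⟦X⟧) = ∑ c ∈ range (n + 1), C (f.coeff c) * X ^ c := by
    ext m
    rw [Polynomial.coeff_coe, map_sum]
    simp only [coeff_C_mul, coeff_X_pow]
    by_cases h : m < n + 1
    · rw [sum_eq_single m]
      · rw [if_pos rfl, mul_one]
      · intro b _ hb
        rw [if_neg (Ne.symm hb), mul_zero]
      · intro h'
        exact absurd (mem_range.2 h) h'
    · rw [sum_eq_zero, fz n f hfn (by omega)]
      intro b hb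
      rw [mem_range] at hb
      rw [if_neg (by omega), mul_zero]
  have h3 : ∑ c ∈ range (n + 1), C (f.coeff c) * d⁄dX ℚ (Ec ψ i c) =
      (f : ℚ⟦X⟧) * d⁄dX ℚ (Ec ψ i 0) + C (1 / 2 : ℚ) * ∑ c ∈ range (n + 1),
        ∑ k ∈ range c, C (f.coeff c) * X ^ (c - 1 - k) * Ec ψ i k := by
    rw [h2, sum_mul, mul_sum, ← sum_add_distrib]
    refine sum_congr rfl fun c _ => ?_
    rw [rel3 ψ i c]
    have : ∑ k ∈ range c, C (f.coeff c) * X ^ (c - 1 - k) * Ec ψ i k =
        C (f.coeff c) * ∑ k ∈ range c, X ^ (c - 1 - k) * Ec ψ i k := by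
      rw [mul_sum]
      exact sum_congr rfl fun k _ => by ring
    rw [this]
    ring
  have h4 : ∑ c ∈ range (n + 1), ∑ k ∈ range c, C (f.coeff c) * X ^ (c - 1 - k) * Ec ψ i k =
      ∑ k ∈ range n, ∑ c ∈ Ioc k n, C (f.coeff c) * X ^ (c - 1 - k) * Ec ψ i k := by
    apply sum_comm'
    intro c k
    rw [mem_range, mem_range, mem_range, mem_Ioc]
    omega
  rw [h3, h4] at h1
  have h5 : ∑ k ∈ range n, (C (((k : ℚ) + 1) * f.coeff (k + 1)) -
        ∑ c ∈ Ioc k n, C (f.coeff c) * X ^ (c - 1 - k)) * Ec ψ i k =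
      ∑ k ∈ range n, C (((k : ℚ) + 1) * f.coeff (k + 1)) * Ec ψ i k -
        ∑ k ∈ range n, ∑ c ∈ Ioc k n, C (f.coeff c) * X ^ (c - 1 - k) * Ec ψ i k := by
    rw [← sum_sub_distrib]
    refine sum_congr rfl fun k _ => ?_
    rw [sub_mul, sum_mul]
  rw [h5]
  linear_combination h1

/-- the differential equation -/
lemma ode (hψ : (f : ℚ⟦X⟧) * th ψ + C (1 / 2 : ℚ) * ((f : ℚ⟦X⟧) + th (f : ℚ⟦X⟧)) * ψ =
    ∑ m ∈ range n, C (rr i f m) * X ^ m) (j : Fin n) :
    (f : ℚ⟦X⟧) * d⁄dX ℚ (Ec ψ i j) = ∑ k : Fin n, Ec ψ i k *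
      (Pool.Agent.Y118.HG.cA n f j k : ℚ⟦X⟧) := by
  have h0 := row0 ψ i n f hfn hψ
  rw [rel3 ψ i j]
  have h1 : ∀ k : Fin n, Ec ψ i k * (Pool.Agent.Y118.HG.cA n f j k : ℚ⟦X⟧) =
      X ^ (j : ℕ) * (C (1 / 2 : ℚ) * ((C ((((k : ℕ) : ℚ) + 1) * f.coeff ((k : ℕ) + 1)) -
        ∑ c ∈ Ioc (k : ℕ) n, C (f.coeff c) * X ^ (c - 1 - (k : ℕ))) * Ec ψ i k)) +
      C (1 / 2 : ℚ) * ((f : ℚ⟦X⟧) *
        (if (k : ℕ) < (j : ℕ) then X ^ ((j : ℕ) - 1 - (k : ℕ)) * Ec ψ i k else 0)) := by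
    intro k
    unfold Pool.Agent.Y118.HG.cA
    have e1 : ∀ (s : Finset ℕ) (G : ℕ → Polynomial ℚ), ((∑ c ∈ s, G c : Polynomial ℚ) : ℚ⟦X⟧) =
        ∑ c ∈ s, (G c : ℚ⟦X⟧) := fun s G => map_sum (Polynomial.coeToPowerSeries.ringHom) G s
    split_ifs with h
    · simp only [Polynomial.coe_add, Polynomial.coe_mul, Polynomial.coe_sub, Polynomial.coe_pow,
        Polynomial.coe_X, Polynomial.coe_C, e1]
      ring
    · simp only [Polynomial.coe_add, Polynomial.coe_mul, Polynomial.coe_sub, Polynomial.coe_pow,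
        Polynomial.coe_X, Polynomial.coe_C, e1, Polynomial.coe_zero]
      ring
  rw [sum_congr rfl fun k _ => h1 k, sum_add_distrib, ← mul_sum, ← mul_sum, ← mul_sum, ← mul_sum]
  rw [Finset.sum_fin_eq_sum_range, Finset.sum_fin_eq_sum_range]
  have h2 : ∑ k ∈ range n, (if h : k < n then (C (((((⟨k, h⟩ : Fin n) : ℕ) : ℚ) + 1) *
      f.coeff (((⟨k, h⟩ : Fin n) : ℕ) + 1)) -
        ∑ c ∈ Ioc ((⟨k, h⟩ : Fin n) : ℕ) n, C (f.coeff c) * X ^ (c - 1 - ((⟨k, h⟩ : Fin n) : ℕ))) *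
          Ec ψ i ((⟨k, h⟩ : Fin n) : ℕ) else 0) =
      ∑ k ∈ range n, (C (((k : ℚ) + 1) * f.coeff (k + 1)) -
        ∑ c ∈ Ioc k n, C (f.coeff c) * X ^ (c - 1 - k)) * Ec ψ i k := by
    refine sum_congr rfl fun k hk => ?_
    rw [mem_range] at hk
    rw [dif_pos hk]
  have h3 : ∑ k ∈ range n, (if h : k < n then (if ((⟨k, h⟩ : Fin n) : ℕ) < (j : ℕ) then
      X ^ ((j : ℕ) - 1 - ((⟨k, h⟩ : Fin n) : ℕ)) * Ec ψ i ((⟨k, h⟩ : Fin n) : ℕ) else 0) else 0) =
      ∑ k ∈ range (j : ℕ), X ^ ((j : ℕ) - 1 - k) * Ec ψ i k := by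
    have e2 : (range n).filter (fun k => k < (j : ℕ)) = range (j : ℕ) := by
      ext k
      rw [mem_filter, mem_range, mem_range]
      have := j.2
      omega
    rw [← e2, sum_filter]
    refine sum_congr rfl fun k hk => ?_
    rw [mem_range] at hk
    rw [dif_pos hk]
  rw [h2, h3, ← h0]
  ring

end main

theorem t_form : Pool.Agent.Y118.HG.T_form := by
  intro n f hfn hf0
  choose ψ hψS hψ using fun i : ℕ => exists_psi f hf0 (∑ m ∈ range n, C (rr i f m) * X ^ m)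
    (SDc_sum _ _ fun m _ => (SDc_const _).mul (SDc_pow m))
  refine ⟨fun i j => Ec (ψ i) i j, ?_, ?_, ?_⟩
  · intro i j
    rw [← coeff_zero_eq_constantCoeff_apply]
    unfold Ec Sg
    rw [coeff_Had, Bs_zero, one_mul, map_add]
    have h1 : coeff 0 (X ^ ((j : ℕ) + 1) * ψ i : ℚ⟦X⟧) = 0 := by
      rw [coeff_X_pow_mul', if_neg (by omega)]
    rw [h1, add_zero]
    by_cases h : (i : ℕ) ≤ j
    · rw [if_pos h, coeff_X_pow]
      by_cases h2 : i = j
      · rw [if_pos (by rw [h2]; omega), if_pos h2]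
      · rw [if_neg (fun h3 => h2 (Fin.ext (by omega))), if_neg h2]
    · rw [if_neg h, map_zero, if_neg (fun h2 => h (by rw [h2]))]
  · intro i j
    exact ode (ψ i) i n f hfn (hψ i) j
  · intro i j
    refine SDc_had SDc_Bs (SDc.add ?_ ((SDc_pow _).mul (hψS i)))
    split_ifs
    · exact SDc_pow _
    · exact SDc_zero

end Pool.Agent.Y655.HG
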